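import Pool.Agent.MQG.StmtsH

/-! Squad MQG, row HCB. -/

set_option autoImplicit false

namespace Pool.Agent.MQG.H27

open scoped InnerProductSpace InnerProduct Topology
open Complex Filter

theorem conj_co {ι : Type} (M : MU ι) (t : ℝ) (x z : L2 ι) :
    M.V t * co M.W x z * M.V (-t) = co M.W (M.V t x) (M.V t z) := by
  have hV := M.V_group
  refine ContinuousLinearMap.ext fun y => ext_inner_left ℂ fun u => ?_
  rw [inner_co]
  change ⟪u, M.V t (co M.W x z (M.V (-t) y))⟫_ℂ = _
  rw [hV.inner_right, inner_co]
  have h1 : M.V t (M.V (-t) y) = y := by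
    have := DFunLike.congr_fun (hV.mul_neg t) y
    exact this
  have h1' : M.V t (M.V (-t) u) = u := by
    have := DFunLike.congr_fun (hV.mul_neg t) u
    exact this
  have h2 : tn (M.V t z) y = tens (M.V t) (M.V t) (tn z (M.V (-t) y)) := by
    rw [tens_tn, h1]
  have h3 : tn (M.V t x) u = tens (M.V t) (M.V t) (tn x (M.V (-t) u)) := by
    rw [tens_tn, h1']
  have h4 : M.W (tens (M.V t) (M.V t) (tn z (M.V (-t) y))) =
      tens (M.V t) (M.V t) (M.W (tn z (M.V (-t) y))) := by
    have := DFunLike.congr_fun (M.inv t) (tn z (M.V (-t) y))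
    exact this
  rw [h2, h3, h4]
  have h5 : ∀ a c : L2 (ι × ι), ⟪tens (M.V t) (M.V t) a, tens (M.V t) (M.V t) c⟫_ℂ = ⟪a, c⟫_ℂ := by
    intro a c
    rw [← ContinuousLinearMap.adjoint_inner_right, ← ContinuousLinearMap.star_eq_adjoint,
      tens_star, hV.star_eq]
    have h6 : tens (M.V (-t)) (M.V (-t)) * tens (M.V t) (M.V t) = 1 := by
      rw [← tens_mul, hV.neg_mul, tens_one]
    have h7 := DFunLike.congr_fun h6 c
    have h8 : tens (M.V (-t)) (M.V (-t)) (tens (M.V t) (M.V t) c) = c := h7
    rw [h8]
  rw [h5]

theorem hcb (abs : AbsStmt) : HcbStmt := by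
  intro ι M b hb
  have hV := M.V_group
  have hcl := abs ι M b hb
  constructor
  · intro t
    have h1 : closure (Submodule.span ℂ {T : Op ι | ∃ x z, T = co M.W x z} : Set (Op ι)) ⊆
        {b | M.V t * b * M.V (-t) ∈ Balg M.W} := by
      refine closure_minimal ?_ ?_
      · intro T hT
        induction hT using Submodule.span_induction with
        | mem T hT =>
          obtain ⟨x, z, rfl⟩ := hT
          change M.V t * co M.W x z * M.V (-t) ∈ Balg M.W
          rw [conj_co]
          exact NonUnitalStarSubalgebra.le_topologicalClosure _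
            (NonUnitalStarAlgebra.subset_adjoin ℂ _ ⟨_, _, rfl⟩)
        | zero =>
          change M.V t * 0 * M.V (-t) ∈ Balg M.W
          rw [mul_zero, zero_mul]
          exact zero_mem _
        | add S T _ _ hS hT =>
          change M.V t * (S + T) * M.V (-t) ∈ Balg M.W
          rw [mul_add, add_mul]
          exact add_mem hS hT
        | smul r T _ hT =>
          change M.V t * (r • T) * M.V (-t) ∈ Balg M.W
          rw [mul_smul_comm, smul_mul_assoc]
          exact SMulMemClass.smul_mem r hT
      · exact (isClosed_Balg M.W).preimage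
          ((continuous_const.mul continuous_id).mul continuous_const)
    exact h1 hcl
  · have hspan : ∀ T ∈ Submodule.span ℂ {T : Op ι | ∃ x z, T = co M.W x z},
        Continuous fun t => M.V t * T * M.V (-t) := by
      intro T hT
      induction hT using Submodule.span_induction with
      | mem T hT =>
        obtain ⟨x, z, rfl⟩ := hT
        have hc : Continuous fun t => (M.V t x, M.V t z) := (hV.cont x).prodMk (hV.cont z)
        have h0 : (fun t => M.V t * co M.W x z * M.V (-t)) =
            (fun p : L2 ι × L2 ι => co M.W p.1 p.2) ∘ fun t => (M.V t x, M.V t z) := by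
          funext t
          exact conj_co M t x z
        rw [h0]
        exact Continuous.comp (continuous_co M.W) hc
      | zero =>
        have h0 : (fun t => M.V t * 0 * M.V (-t)) = fun _ => (0 : Op ι) := by
          funext t
          rw [mul_zero, zero_mul]
        rw [h0]
        exact continuous_const
      | add S T _ _ hS hT =>
        have h0 : (fun t => M.V t * (S + T) * M.V (-t)) =
            fun t => M.V t * S * M.V (-t) + M.V t * T * M.V (-t) := by
          funext t
          rw [mul_add, add_mul]
        rw [h0]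
        exact Continuous.add hS hT
      | smul r T _ hT =>
        have h0 : (fun t => M.V t * (r • T) * M.V (-t)) =
            fun t => r • (M.V t * T * M.V (-t)) := by
          funext t
          rw [mul_smul_comm, smul_mul_assoc]
        rw [h0]
        exact Continuous.const_smul hT r
    refine continuous_of_uniform_approx_of_continuous fun u hu => ?_
    obtain ⟨ε, hε, hu⟩ := Metric.mem_uniformity_dist.1 hu
    obtain ⟨b', hb', hd⟩ := Metric.mem_closure_iff.1 hcl ε hε
    refine ⟨fun t => M.V t * b' * M.V (-t), hspan b' hb', fun t => hu ?_⟩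
    have h2 : M.V t * b * M.V (-t) - M.V t * b' * M.V (-t) = M.V t * (b - b') * M.V (-t) := by
      rw [mul_sub, sub_mul]
    rw [dist_eq_norm, h2]
    refine lt_of_le_of_lt ?_ (by rwa [dist_eq_norm] at hd)
    calc ‖M.V t * (b - b') * M.V (-t)‖ ≤ ‖M.V t * (b - b')‖ * ‖M.V (-t)‖ := norm_mul_le _ _
      _ ≤ (‖M.V t‖ * ‖b - b'‖) * ‖M.V (-t)‖ :=
          mul_le_mul_of_nonneg_right (norm_mul_le _ _) (norm_nonneg _)
      _ ≤ (1 * ‖b - b'‖) * 1 := by
          refine mul_le_mul (mul_le_mul_of_nonneg_right (hV.norm_le t) (norm_nonneg _))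
            (hV.norm_le (-t)) (norm_nonneg _) (by positivity)
      _ = ‖b - b'‖ := by ring

end Pool.Agent.MQG.H27
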