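import Pool.Agent.MQG.StmtsB

/-! Squad MQG, row LTE. -/

set_option autoImplicit false

namespace Pool.Agent.MQG.H27

open scoped InnerProductSpace InnerProduct Topology
open Complex Filter

theorem lam_inj (dns : DnsStmt) {ι : Type} (M : MU ι) {κ : Type} (U : Op (κ × ι))
    (hU : Adapted M.W U) {ρ ρ' : Du U} (h : lam U ρ = lam U ρ') : ρ = ρ' := by
  refine ContinuousLinearMap.ext_on (dns ι M κ U hU) ?_
  rintro _ ⟨u, y, rfl⟩
  rw [← inner_lam, ← inner_lam, h]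

theorem lam_comp {ι κ : Type} (U : Op (κ × ι)) (μ ω : Du U) (L : Al U →L[ℂ] Al U)
    (hL : ∀ u y, L (asl U u y) = asl U (star (lam U μ) u) y) :
    lam U (ω ∘L L) = lam U μ * lam U ω := by
  refine ContinuousLinearMap.ext fun y => ext_inner_left ℂ fun u => ?_
  rw [inner_lam]
  change ω (L (asl U u y)) = ⟪u, lam U μ (lam U ω y)⟫_ℂ
  rw [hL, ← inner_lam, ContinuousLinearMap.star_eq_adjoint, ContinuousLinearMap.adjoint_inner_left]

theorem lte (dns : DnsStmt) (lti : LtiStmt) (rlx : RlxStmt) : LteStmt := by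
  intro ι M κ WW hU e he ω hω f hf
  have hL0 : ∀ μ : Du WW, ∃ L : Al WW →L[ℂ] Al WW, ‖L‖ ≤ ‖μ‖ ∧
      ∀ u y, L (asl WW u y) = asl WW (star (lam WW μ) u) y := fun μ => (rlx ι M κ WW hU μ).2
  choose L hLn hL using hL0
  have hfL : f = fun μ => ω ∘L L μ := by
    funext μ
    refine lam_inj dns M WW hU.adapted ?_
    rw [hf μ, lam_comp WW μ ω (L μ) (hL μ)]
  rw [hfL]
  obtain ⟨F, hF⟩ : ∃ F : Filter (Du WW), F = comap (fun (μ : Du WW) (a : Al WW) => μ a)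
      (𝓝 fun a : Al WW => e a) ⊓ 𝓟 {μ | IsState μ} := ⟨_, rfl⟩
  rw [← hF]
  have hev : ∀ᶠ μ in F, IsState μ := by
    rw [hF]
    exact mem_inf_of_right (mem_principal_self _)
  have hpt : ∀ a : Al WW, Tendsto (fun μ : Du WW => μ a) F (𝓝 (e a)) := by
    intro a
    have h1 : Tendsto (fun (μ : Du WW) (a : Al WW) => μ a) F (𝓝 fun a : Al WW => e a) := by
      rw [hF]
      exact tendsto_comap.mono_left inf_le_left
    exact (tendsto_pi_nhds.1 h1) a
  have hsq : ∀ x : L2 ι, Tendsto (fun μ : Du WW =>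
      √(2 * ‖x‖ ^ 2 - 2 * (μ (asl WW x x)).re)) F (𝓝 0) := by
    intro x
    have h1 := hpt (asl WW x x)
    rw [he] at h1
    have h2 : Tendsto (fun μ : Du WW => (μ (asl WW x x)).re) F (𝓝 (⟪x, x⟫_ℂ).re) :=
      (Complex.continuous_re.tendsto _).comp h1
    have h3 : (⟪x, x⟫_ℂ).re = ‖x‖ ^ 2 := by
      have := inner_self_eq_norm_sq (𝕜 := ℂ) x
      exact this
    rw [h3] at h2
    have h4 : Tendsto (fun μ : Du WW => 2 * ‖x‖ ^ 2 - 2 * (μ (asl WW x x)).re) F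
        (𝓝 (2 * ‖x‖ ^ 2 - 2 * ‖x‖ ^ 2)) := tendsto_const_nhds.sub (h2.const_mul 2)
    rw [sub_self] at h4
    have h5 := (Real.continuous_sqrt.tendsto 0).comp h4
    rw [Real.sqrt_zero] at h5
    exact h5
  -- the submodule of the functionals with the property
  let S : Submodule ℂ (Du WW) :=
    { carrier := {ω | Tendsto (fun μ => ω ∘L L μ) F (𝓝 ω)}
      add_mem' := by
        intro a b ha hb
        have := Filter.Tendsto.add ha hb
        simpa only [Set.mem_ofPred_eq, ContinuousLinearMap.add_comp] using this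
      zero_mem' := by
        simp only [Set.mem_ofPred_eq, ContinuousLinearMap.zero_comp]
        exact tendsto_const_nhds
      smul_mem' := by
        intro c a ha
        have := Filter.Tendsto.const_smul ha c
        simpa only [Set.mem_ofPred_eq, ContinuousLinearMap.smul_comp] using this }
  have hgen : {ω : Du WW | ∃ Λ : Al WW →⋆ₙₐ[ℂ] Op ι,
      (∀ u y, Λ (asl WW u y) = sl M.W u y) ∧ ∃ x z, ∀ a, ω a = ⟪x, Λ a z⟫_ℂ} ⊆ S := by
    rintro ω' ⟨Λ, hΛ, x, z, hxz⟩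
    change Tendsto (fun μ => ω' ∘L L μ) F (𝓝 ω')
    rw [tendsto_iff_norm_sub_tendsto_zero]
    have h1 : Tendsto (fun μ : Du WW =>
        √(2 * ‖x‖ ^ 2 - 2 * (μ (asl WW x x)).re) * ‖z‖ +
        ‖x‖ * √(2 * ‖z‖ ^ 2 - 2 * (μ (asl WW z z)).re)) F (𝓝 0) := by
      have h2 := ((hsq x).mul_const ‖z‖).add ((hsq z).const_mul ‖x‖)
      rw [zero_mul, mul_zero, add_zero] at h2
      exact h2
    refine squeeze_zero' (Eventually.of_forall fun μ => norm_nonneg _) ?_ h1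
    filter_upwards [hev] with μ hμ
    exact lti ι M κ WW hU Λ hΛ μ ω' (ω' ∘L L μ) x z hμ hxz (lam_comp WW μ ω' (L μ) (hL μ))
  have hspan : Submodule.span ℂ {ω : Du WW | ∃ Λ : Al WW →⋆ₙₐ[ℂ] Op ι,
      (∀ u y, Λ (asl WW u y) = sl M.W u y) ∧ ∃ x z, ∀ a, ω a = ⟪x, Λ a z⟫_ℂ} ≤ S :=
    Submodule.span_le.2 hgen
  have hcl : ω ∈ closure (S : Set (Du WW)) := by
    have h1 : ω ∈ closure ((Submodule.span ℂ {ω : Du WW | ∃ Λ : Al WW →⋆ₙₐ[ℂ] Op ι,
      (∀ u y, Λ (asl WW u y) = sl M.W u y) ∧ ∃ x z, ∀ a, ω a = ⟪x, Λ a z⟫_ℂ} :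
        Submodule ℂ (Du WW)) : Set (Du WW)) := hω
    exact closure_mono hspan h1
  rw [Metric.tendsto_nhds]
  intro ε hε
  obtain ⟨ω', hω', hd⟩ := Metric.mem_closure_iff.1 hcl (ε / 3) (by positivity)
  have h1 : Tendsto (fun μ => ω' ∘L L μ) F (𝓝 ω') := hω'
  have h2 := (Metric.tendsto_nhds.1 h1) (ε / 3) (by positivity)
  filter_upwards [hev, h2] with μ hμ h3
  have h4 : dist (ω ∘L L μ) (ω' ∘L L μ) ≤ dist ω ω' := by
    rw [dist_eq_norm, dist_eq_norm, ← ContinuousLinearMap.sub_comp]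
    refine (ContinuousLinearMap.opNorm_comp_le _ _).trans ?_
    have h5 : ‖L μ‖ ≤ 1 := (hLn μ).trans hμ.1.le
    calc ‖ω - ω'‖ * ‖L μ‖ ≤ ‖ω - ω'‖ * 1 := mul_le_mul_of_nonneg_left h5 (norm_nonneg _)
      _ = ‖ω - ω'‖ := mul_one _
  have h6 := dist_triangle4 (ω ∘L L μ) (ω' ∘L L μ) ω' ω
  have h7 : dist ω' ω = dist ω ω' := dist_comm _ _
  linarith

end Pool.Agent.MQG.H27
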